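import Pool.Agent.helper43.BMH.Spec

/-! # Row `CN2` of project bmh: counting sparse integer vectors -/

set_option autoImplicit false

namespace Pool.Agent.helper43.BMH

/-- the weights -/
noncomputable def CN2_w (φ t : ℝ) (j : ℤ) : ℝ :=
  Real.exp (-(if j = 0 then 0 else t) - φ / 16 * (j.natAbs : ℝ))

theorem CN2_w_zero (φ t : ℝ) : CN2_w φ t 0 = 1 := by
  unfold CN2_w
  simp

theorem CN2_w_ne (φ t : ℝ) (j : ℤ) (hj : j ≠ 0) :
    CN2_w φ t j = Real.exp (-t) * Real.exp (-(φ / 16)) ^ j.natAbs := by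
  unfold CN2_w
  rw [if_neg hj, ← Real.exp_nat_mul, ← Real.exp_add]
  congr 1
  ring

theorem CN2_sum (hg : GEO) (φ t : ℝ) (hφ : 0 < φ) (S : Finset ℤ) :
    ∑ j ∈ S, CN2_w φ t j ≤ 1 + Real.exp (-t) *
      (2 * Real.exp (-(φ / 16)) / (1 - Real.exp (-(φ / 16)))) := by
  classical
  have hx1 : Real.exp (-(φ / 16)) < 1 := by
    rw [Real.exp_lt_one_iff]; linarith
  have h0 := hg (Real.exp (-(φ / 16))) (Real.exp_pos _).le hx1 (insert 0 S)
  have hpos : ∀ j, 0 ≤ CN2_w φ t j := fun j => (Real.exp_pos _).le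
  have h1 : ∑ j ∈ S, CN2_w φ t j ≤ ∑ j ∈ insert 0 S, CN2_w φ t j :=
    Finset.sum_le_sum_of_subset_of_nonneg (Finset.subset_insert _ _) fun j _ _ => hpos j
  have h2 : ∑ j ∈ insert 0 S, CN2_w φ t j =
      1 + ∑ j ∈ (insert 0 S).erase 0, CN2_w φ t j := by
    rw [← Finset.add_sum_erase _ _ (Finset.mem_insert_self 0 S), CN2_w_zero]
  have h3 : ∑ j ∈ insert 0 S, Real.exp (-(φ / 16)) ^ j.natAbs =
      1 + ∑ j ∈ (insert 0 S).erase 0, Real.exp (-(φ / 16)) ^ j.natAbs := by
    rw [← Finset.add_sum_erase _ _ (Finset.mem_insert_self 0 S)]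
    simp
  have h4 : ∑ j ∈ (insert 0 S).erase 0, CN2_w φ t j =
      Real.exp (-t) * ∑ j ∈ (insert 0 S).erase 0, Real.exp (-(φ / 16)) ^ j.natAbs := by
    rw [Finset.mul_sum]
    refine Finset.sum_congr rfl fun j hj => ?_
    exact CN2_w_ne φ t j (Finset.ne_of_mem_erase hj)
  rw [h2, h4] at h1
  refine h1.trans ?_
  have h5 : ∑ j ∈ (insert 0 S).erase 0, Real.exp (-(φ / 16)) ^ j.natAbs ≤
      2 * Real.exp (-(φ / 16)) / (1 - Real.exp (-(φ / 16))) := by linarith
  have h6 := mul_le_mul_of_nonneg_left h5 (Real.exp_pos (-t)).le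
  linarith

theorem CN2_prod {ι : Type} [Fintype ι] (φ t : ℝ) (g : ι → ℤ) :
    ∏ i, CN2_w φ t (g i) = Real.exp (-(t * (spt g : ℝ)) - φ / 16 * ∑ i, ((g i).natAbs : ℝ)) := by
  classical
  unfold CN2_w
  rw [← Real.exp_sum]
  congr 1
  rw [Finset.sum_sub_distrib, Finset.mul_sum, Finset.sum_neg_distrib]
  congr 2
  unfold spt
  rw [Finset.card_filter, Nat.cast_sum, Finset.mul_sum]
  refine Finset.sum_congr rfl fun i _ => ?_
  by_cases h : g i = 0
  · rw [if_pos h, if_neg (by simpa using h)]; simp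
  · rw [if_neg h, if_pos h]; simp

theorem CN2_abs {ι : Type} [Fintype ι] (g : ι → ℤ) :
    ∑ i, ((g i).natAbs : ℝ) ≤ ∑ i, (g i : ℝ) ^ 2 := by
  refine Finset.sum_le_sum fun i _ => ?_
  have h1 : ((g i).natAbs : ℝ) = ((|g i| : ℤ) : ℝ) := by
    rw [Int.abs_eq_natAbs]; simp
  rw [h1]
  have h2 : |g i| ≤ (g i) ^ 2 := by
    rw [← sq_abs]
    rcases eq_or_ne (g i) 0 with h | h
    · rw [h]; simp
    · have : 1 ≤ |g i| := Int.one_le_abs h
      nlinarith
  exact_mod_cast h2

theorem t_cn2 (hg : GEO) (h0 : CN0) : CN2 := by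
  intro φ hφ
  set x : ℝ := Real.exp (-(φ / 16)) with hx
  have hx0 : 0 < x := Real.exp_pos _
  have hx1 : x < 1 := by rw [hx, Real.exp_lt_one_iff]; linarith
  set y : ℝ := 2 * x / (1 - x) with hy
  have hy0 : 0 ≤ y := div_nonneg (by linarith) (by linarith)
  set q : ℝ := φ / 4 / (y + 1) with hq
  have hq0 : 0 < q := by positivity
  set t : ℝ := max 1 (-Real.log q) with ht
  have ht1 : 1 ≤ t := le_max_left _ _
  have hexp : Real.exp (-t) * y ≤ φ / 4 := by
    have h1 : Real.exp (-t) ≤ q := by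
      have h2 : -t ≤ Real.log q := by
        have := le_max_right 1 (-Real.log q)
        rw [← ht] at this
        linarith
      calc Real.exp (-t) ≤ Real.exp (Real.log q) := Real.exp_le_exp.2 h2
        _ = q := Real.exp_log hq0
    calc Real.exp (-t) * y ≤ q * y := mul_le_mul_of_nonneg_right h1 hy0
      _ ≤ q * (y + 1) := mul_le_mul_of_nonneg_left (by linarith) hq0.le
      _ = φ / 4 := by rw [hq]; field_simp
  refine ⟨min 1 (φ / (4 * t)), lt_min one_pos (by positivity), min_le_left _ _, ?_⟩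
  intro ι _ U hU
  set n : ℝ := (Fintype.card ι : ℝ) with hn
  have hn0 : 0 ≤ n := Nat.cast_nonneg _
  have h1 := h0 ι (CN2_w φ t) (1 + φ / 4) (Real.exp (-(φ / 2) * n)) U
    (fun j => (Real.exp_pos _).le) (fun S => (CN2_sum hg φ t hφ S).trans (by
      have : Real.exp (-t) * (2 * Real.exp (-(φ / 16)) / (1 - Real.exp (-(φ / 16)))) =
        Real.exp (-t) * y := rfl
      rw [this]; linarith)) (by
      intro g hgU
      obtain ⟨hs, hsq⟩ := hU g hgU
      rw [CN2_prod]
      apply Real.exp_le_exp.2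
      have h2 := (CN2_abs g).trans hsq
      have h3 : t * (spt g : ℝ) ≤ φ / 4 * n := by
        calc t * (spt g : ℝ) ≤ t * (min 1 (φ / (4 * t)) * n) :=
              mul_le_mul_of_nonneg_left hs (by linarith)
          _ ≤ t * (φ / (4 * t) * n) := by
              apply mul_le_mul_of_nonneg_left _ (by linarith)
              exact mul_le_mul_of_nonneg_right (min_le_right _ _) hn0
          _ = φ / 4 * n := by field_simp
      have h4 : φ / 16 * ∑ i, ((g i).natAbs : ℝ) ≤ φ / 16 * (4 * n) :=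
        mul_le_mul_of_nonneg_left h2 (by positivity)
      linarith)
  have h2 : (1 + φ / 4) ^ Fintype.card ι ≤ Real.exp (φ / 4 * n) := by
    calc (1 + φ / 4) ^ Fintype.card ι ≤ Real.exp (φ / 4) ^ Fintype.card ι := by
          apply pow_le_pow_left₀ (by positivity)
          linarith [Real.add_one_le_exp (φ / 4)]
      _ = Real.exp (φ / 4 * n) := by
          rw [← Real.exp_nat_mul, mul_comm]
  have h3 : (U.card : ℝ) ≤ Real.exp (φ / 4 * n) * Real.exp (φ / 2 * n) := by
    have h4 : Real.exp (φ / 2 * n) * (Real.exp (-(φ / 2) * n) * (U.card : ℝ)) = (U.card : ℝ) := by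
      rw [← mul_assoc, ← Real.exp_add]
      have : φ / 2 * n + -(φ / 2) * n = 0 := by ring
      rw [this, Real.exp_zero, one_mul]
    calc (U.card : ℝ) = Real.exp (φ / 2 * n) * (Real.exp (-(φ / 2) * n) * (U.card : ℝ)) := h4.symm
      _ ≤ Real.exp (φ / 2 * n) * Real.exp (φ / 4 * n) :=
          mul_le_mul_of_nonneg_left (h1.trans h2) (Real.exp_pos _).le
      _ = Real.exp (φ / 4 * n) * Real.exp (φ / 2 * n) := mul_comm _ _
  refine h3.trans ?_
  rw [← Real.exp_add]
  apply Real.exp_le_exp.2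
  nlinarith

end Pool.Agent.helper43.BMH
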