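import Pool.Agent.helper43.BMH.Spec

/-! # Row `HKR` of project bmh: Hadamard matrices of order `2^i 12^j` -/

set_option autoImplicit false

namespace Pool.Agent.helper43.BMH

/-- there is a Hadamard matrix of order `n`, in terms of entries -/
def HKR_ord (n : ℕ) : Prop := ∃ T : Fin n → Fin n → ℝ, (∀ i j, T i j = 1 ∨ T i j = -1) ∧
  ∀ i j, ∑ k, T i k * T j k = if i = j then (n : ℝ) else 0

theorem HKR_had {n : ℕ} (h : HKR_ord n) : ∃ K : Matrix (Fin n) (Fin n) ℝ, IsHad K := by
  obtain ⟨T, h1, h2⟩ := h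
  refine ⟨T, h1, ?_⟩
  ext i j
  rw [Matrix.mul_apply, Matrix.smul_apply, Matrix.one_apply, Fintype.card_fin]
  simp only [Matrix.transpose_apply]
  rw [h2]
  split_ifs <;> simp

theorem HKR_one : HKR_ord 1 := by
  refine ⟨fun _ _ => 1, fun _ _ => Or.inl rfl, ?_⟩
  intro i j
  rw [if_pos (Subsingleton.elim i j)]
  simp

theorem HKR_two : HKR_ord 2 := by
  refine ⟨fun i j => if i = 1 ∧ j = 1 then -1 else 1, ?_, ?_⟩
  · intro i j
    dsimp only
    split_ifs
    · exact Or.inr rfl
    · exact Or.inl rfl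
  · intro i j
    fin_cases i <;> fin_cases j <;> simp [Fin.sum_univ_two]
    all_goals norm_num

/-- Paley's matrix of order 12 -/
def HKR_h (i j : Fin 12) : ℤ :=
  if i.val = 0 ∨ i = j then 1 else if j.val = 0 then -1 else
    if (i.val + 11 - j.val) % 11 ∈ [1, 3, 4, 5, 9] then 1 else -1

theorem HKR_h_pm : ∀ i j : Fin 12, HKR_h i j = 1 ∨ HKR_h i j = -1 := by decide +kernel

theorem HKR_h_orth : ∀ i j : Fin 12, ∑ k, HKR_h i k * HKR_h j k = if i = j then 12 else 0 := by
  decide +kernel

theorem HKR_twelve : HKR_ord 12 := by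
  refine ⟨fun i j => (HKR_h i j : ℝ), ?_, ?_⟩
  · intro i j
    dsimp only
    rcases HKR_h_pm i j with h | h
    · left; rw [h]; norm_num
    · right; rw [h]; norm_num
  · intro i j
    have h := congrArg (fun z : ℤ => (z : ℝ)) (HKR_h_orth i j)
    simp only [Int.cast_sum, Int.cast_mul] at h
    rw [h]
    split_ifs <;> norm_num

theorem HKR_mul {m n : ℕ} (hm : HKR_ord m) (hn : HKR_ord n) : HKR_ord (m * n) := by
  obtain ⟨S, hS1, hS2⟩ := hm
  obtain ⟨T, hT1, hT2⟩ := hn
  let e : Fin (m * n) ≃ Fin m × Fin n := finProdFinEquiv.symm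
  refine ⟨fun i j => S (e i).1 (e j).1 * T (e i).2 (e j).2, ?_, ?_⟩
  · intro i j
    rcases hS1 (e i).1 (e j).1 with h | h <;> rcases hT1 (e i).2 (e j).2 with h' | h' <;>
      simp [h, h']
  · intro i j
    have h1 : ∑ k : Fin (m * n), S (e i).1 (e k).1 * T (e i).2 (e k).2 *
        (S (e j).1 (e k).1 * T (e j).2 (e k).2) =
        ∑ x : Fin m × Fin n, (S (e i).1 x.1 * S (e j).1 x.1) * (T (e i).2 x.2 * T (e j).2 x.2) := by
      rw [← Equiv.sum_comp e]
      refine Finset.sum_congr rfl fun k _ => ?_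
      ring
    rw [h1, Fintype.sum_prod_type]
    have h2 : ∀ x : Fin m, ∑ y : Fin n, (S (e i).1 x * S (e j).1 x) * (T (e i).2 y * T (e j).2 y) =
        (S (e i).1 x * S (e j).1 x) * (if (e i).2 = (e j).2 then (n : ℝ) else 0) := by
      intro x
      rw [← Finset.mul_sum, hT2]
    simp_rw [h2]
    rw [← Finset.sum_mul, hS2]
    by_cases hij : i = j
    · subst hij
      simp
    · rw [if_neg hij]
      have : e i ≠ e j := fun h => hij (e.injective h)
      by_cases h3 : (e i).1 = (e j).1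
      · have h4 : (e i).2 ≠ (e j).2 := fun h => this (Prod.ext h3 h)
        rw [if_neg h4, mul_zero]
      · rw [if_neg h3, zero_mul]

theorem t_hkr : HKR := by
  intro i j
  apply HKR_had
  apply HKR_mul
  · induction i with
    | zero => exact HKR_one
    | succ i ih =>
      rw [pow_succ]
      exact HKR_mul ih HKR_two
  · induction j with
    | zero => exact HKR_one
    | succ j ih =>
      rw [pow_succ]
      exact HKR_mul ih HKR_twelve

end Pool.Agent.helper43.BMH
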